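import Pool.Agent.KS6_55.PR.Sol

/-!
# Partition regularity of the systems `a i * x i + b i * y i = c i * w i * z i ^ n`

Q1 asks whether the system is partition regular over the nonzero integers exactly when some element of
`I = S 1 ∩ ... ∩ S k`, `S i = {a i / c i, b i / c i, (a i + b i) / c i}`, is the `n`-th power of a rational.
We show that an equation with `a i + b i = 0` imposes no condition at all.
-/

set_option autoImplicit false

namespace Pool.Agent.Results.MP_a5a405_co.CorrectedCriterion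

/-- the system `a i * x i + b i * y i = c i * w i * z i ^ n`, `i < k`, is partition regular over the
nonzero integers: for every colouring of `ℤ` with finitely many colours it has a solution in nonzero
integers all of whose `4 k` variables have one colour -/
def PartReg (k : ℕ) (a b c : Fin k → ℤ) (n : ℕ) : Prop :=
  ∀ (r : ℕ) (χ : ℤ → Fin r), ∃ (x y w z : Fin k → ℤ) (col : Fin r),
    ∀ i, x i ≠ 0 ∧ y i ≠ 0 ∧ w i ≠ 0 ∧ z i ≠ 0 ∧
      a i * x i + b i * y i = c i * w i * z i ^ n ∧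
      χ (x i) = col ∧ χ (y i) = col ∧ χ (w i) = col ∧ χ (z i) = col

/-- the rational `s` lies in `S i = {a i / c i, b i / c i, (a i + b i) / c i}` -/
def InS {k : ℕ} (a b c : Fin k → ℤ) (i : Fin k) (s : ℚ) : Prop :=
  s = (a i : ℚ) / (c i : ℚ) ∨ s = (b i : ℚ) / (c i : ℚ) ∨ s = ((a i : ℚ) + (b i : ℚ)) / (c i : ℚ)

theorem result :
    -- sufficiency, all `k` and `n`
    (∀ (k : ℕ) (a b c : Fin k → ℤ) (n : ℕ), 1 ≤ n → (∀ i, a i ≠ 0 ∧ b i ≠ 0 ∧ c i ≠ 0) →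
      (∃ q : ℚ, q ≠ 0 ∧ ∀ i, a i + b i = 0 ∨ InS a b c i (q ^ n)) → PartReg k a b c n) ∧
    -- exact criterion for `n = 1`
    (∀ (k : ℕ) (a b c : Fin k → ℤ), (∀ i, a i ≠ 0 ∧ b i ≠ 0 ∧ c i ≠ 0) →
      (PartReg k a b c 1 ↔ ∃ q : ℚ, q ≠ 0 ∧ ∀ i, a i + b i = 0 ∨ InS a b c i q)) ∧
    -- necessary local condition, all `k` and `n`
    (∀ (k : ℕ) (a b c : Fin k → ℤ) (n : ℕ), 1 ≤ n → (∀ i, a i ≠ 0 ∧ b i ≠ 0 ∧ c i ≠ 0) →
      PartReg k a b c n → ∀ (p : ℕ) [Fact p.Prime],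
      (∀ i, ¬ (p : ℤ) ∣ a i ∧ ¬ (p : ℤ) ∣ b i ∧ ¬ (p : ℤ) ∣ c i ∧
        (a i + b i ≠ 0 → ¬ (p : ℤ) ∣ a i + b i)) →
      ∃ δ : ZMod p, δ ≠ 0 ∧ ∀ i, a i + b i = 0 ∨ (c i : ZMod p) * δ ^ n = a i ∨
        (c i : ZMod p) * δ ^ n = b i ∨ (c i : ZMod p) * δ ^ n = a i + b i) ∧
    -- the criterion of Q1 fails for every `k ≥ 2` and every `n ≥ 1`
    (∀ k n : ℕ, 2 ≤ k → 1 ≤ n → ∃ a b c : Fin k → ℤ, (∀ i, a i ≠ 0 ∧ b i ≠ 0 ∧ c i ≠ 0) ∧
      PartReg k a b c n ∧ (∀ s : ℚ, ¬ ∀ i, InS a b c i s) ∧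
      ¬ ∃ q : ℚ, ∀ i, InS a b c i (q ^ n)) := by
  refine ⟨fun k a b c n _ h0 ⟨q, hq, h⟩ => KS6_55.PR.suff k a b c n h0 q hq h,
    fun k a b c h0 => KS6_55.PR.crit k a b c h0,
    fun k a b c n _ _ hPR p _ h1 => KS6_55.PR.nec k a b c n hPR p h1, fun k n hk hn => ?_⟩
  let i0 : Fin k := ⟨0, by omega⟩
  let i1 : Fin k := ⟨1, by omega⟩
  have h01 : i1 ≠ i0 := by simp [i0, i1]
  have hI : ∀ s : ℚ, ¬ ∀ i, InS (fun _ : Fin k => 1) (fun i => if i = i0 then -1 else 1)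
      (fun i => if i = i0 then 2 else 1) i s := by
    intro s h
    have h0 := h i0
    have h1 := h i1
    simp only [InS, if_true, if_neg h01] at h0 h1
    rcases h0 with h0 | h0 | h0 <;> rcases h1 with h1 | h1 | h1 <;> rw [h0] at h1 <;>
      norm_num at h1
  refine ⟨fun _ => 1, fun i => if i = i0 then -1 else 1, fun i => if i = i0 then 2 else 1,
    fun i => ⟨one_ne_zero, by (try dsimp only); split_ifs <;> norm_num,
      by (try dsimp only); split_ifs <;> norm_num⟩, ?_, hI,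
    fun ⟨q, hq⟩ => hI _ hq⟩
  refine KS6_55.PR.suff k _ _ _ n (fun i => ⟨one_ne_zero, by (try dsimp only); split_ifs <;> norm_num,
    by (try dsimp only); split_ifs <;> norm_num⟩) 1 one_ne_zero fun i => ?_
  by_cases hi : i = i0
  · left; simp [hi]
  · right; left; simp [hi]

end Pool.Agent.Results.MP_a5a405_co.CorrectedCriterion
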